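import Pool.Agent.H26.Arens

set_option autoImplicit false

namespace Pool.Agent.Results.MP_67b4ec_an.Q2

section

variable (A : Type) [NormedAddCommGroup A] [NormedSpace ℂ A]

def Dual : Type := A →L[ℂ] ℂ

noncomputable instance : NormedAddCommGroup (Dual A) :=
  inferInstanceAs (NormedAddCommGroup (A →L[ℂ] ℂ))

noncomputable instance : NormedSpace ℂ (Dual A) := inferInstanceAs (NormedSpace ℂ (A →L[ℂ] ℂ))

variable {A}

noncomputable def ev (f : Dual A) (a : A) : ℂ := (show A →L[ℂ] ℂ from f) a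

def IsArens (m : A → A → A) (box : Dual (Dual A) → Dual (Dual A) → Dual (Dual A)) : Prop :=
  ∀ Φ Ψ (f : Dual A), ∃ (g : A → Dual A) (h : Dual A), (∀ a b, ev (g a) b = ev f (m a b)) ∧
    (∀ a, ev h a = ev Ψ (g a)) ∧ ev (box Φ Ψ) f = ev Φ h

def rad (box : A → A → A) : Set A :=
  {Φ | ∀ (Θ : A) (c : ℂ), ∃ Ξ, Ξ + (box Θ Φ + c • Φ) - box Ξ (box Θ Φ + c • Φ) = 0}

def RadSquareNeZero (m : A → A → A) : Prop :=
  ∃ box, IsArens m box ∧ ∃ Φ ∈ rad box, ∃ Ψ ∈ rad box, box Φ Ψ ≠ 0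

end

abbrev L1 : Type := lp (fun _ : ℤ => ℂ) 1

def IsConv (m : L1 → L1 → L1) : Prop := ∀ a b n, m a b n = ∑' k, a k * b (n - k)

lemma lift {B : Type} [NormedAddCommGroup B] [NormedSpace ℂ B] [CompleteSpace B] (v : ℤ → B)
    (hv : ∀ i, ‖v i‖ ≤ 1) : ∃ S : L1 →L[ℂ] B, (∀ a, ‖S a‖ ≤ ‖a‖) ∧
      (∀ a : L1, HasSum (fun k => a k • v k) (S a)) ∧ ∀ i, S (lp.single 1 i 1) = v i := by
  have h0 : ∀ a : L1, HasSum (fun k => ‖a k‖) ‖a‖ := fun a => by
    simpa using lp.hasSum_norm (by simp) a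
  have h1 : ∀ (a : L1) k, ‖a k • v k‖ ≤ ‖a k‖ := fun a k =>
    (norm_smul_le _ _).trans (mul_le_of_le_one_right (norm_nonneg _) (hv k))
  have h2 : ∀ a : L1, Summable fun k => a k • v k := fun a => .of_norm_bounded (h0 a).summable (h1 a)
  refine ⟨LinearMap.mkContinuous ⟨⟨fun a => ∑' k, a k • v k, fun a b => by
    simp [add_smul, (h2 a).tsum_add (h2 b)]⟩, fun c a => by
      simp [mul_smul, (h2 a).tsum_const_smul c]⟩ 1 fun a => ?_, fun a => ?_, fun a => (h2 a).hasSum,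
    fun i => ?_⟩
  · exact (tsum_of_norm_bounded (h0 a) (h1 a)).trans_eq (one_mul _).symm
  · exact tsum_of_norm_bounded (h0 a) (h1 a)
  · exact (tsum_eq_single i fun k hk => by simp [lp.single_apply, hk]).trans (by simp)

theorem result : ∃ m, IsConv m ∧ RadSquareNeZero m := by
  have hδ : ∀ i : ℤ, ‖(lp.single 1 i 1 : L1)‖ ≤ 1 := fun i => by simp
  choose S hS1 hS2 hS3 using fun k : ℤ => lift (fun i => (lp.single 1 (k + i) 1 : L1)) fun i => hδ _
  obtain ⟨m, hm1, hm2, hm3⟩ := lift S fun k =>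
    ContinuousLinearMap.opNorm_le_bound _ zero_le_one fun a => by simpa using hS1 k a
  refine ⟨fun a b => m a b, fun a b n => ?_, H26.Arens.arens m, fun Φ Ψ f =>
    ⟨fun a => ContinuousLinearMap.comp f (m a), H26.Arens.dot m Ψ f, fun _ _ => rfl, fun _ => rfl, rfl⟩,
    H26.Arens.main m (fun i => lp.single 1 i 1) hδ hm1 (fun i j => by
    rw [hm3, hS3]) (fun T T' h => ContinuousLinearMap.ext fun a => ?_) fun s => ?_⟩
  · have e : ∀ k, S k b n = b (n - k) := fun k => by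
      have := ((hS2 k b).mapL (lp.evalCLM ℂ (fun _ : ℤ => ℂ) 1 n)).tsum_eq
      rw [tsum_eq_single (n - k) fun i hi => by
        simp [lp.evalCLM, lp.single_apply, Pi.single_apply, show n ≠ k + i by omega]] at this
      simpa [lp.evalCLM] using this.symm
    have := (((hm2 a).mapL (ContinuousLinearMap.apply ℂ L1 b)).mapL
      (lp.evalCLM ℂ (fun _ : ℤ => ℂ) 1 n)).tsum_eq
    simpa [lp.evalCLM, e] using this.symm
  · have h1 : ∀ i, (lp.single 1 i (a i) : L1) = a i • lp.single 1 i 1 := fun i => by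
      rw [← lp.single_smul, smul_eq_mul, mul_one]
    have h2 := lp.hasSum_single (by simp) a
    exact (h2.mapL T).unique (by simpa only [h1, map_smul, h] using h2.mapL T')
  · obtain ⟨f, -, -, h⟩ := lift (s.indicator (1 : ℤ → ℂ)) fun i => by
      by_cases h : i ∈ s <;> simp [h]
    exact ⟨f, h⟩

end Pool.Agent.Results.MP_67b4ec_an.Q2
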